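import Pool.Agent.Run7.h604.HK.Laws2

/-!
# `L²`-homology above half the cocompact action dimension: a superexponentially small share suffices

Let `𝒢` be a class of groups `G`, each with a contractible `G`-manifold `M`, closed under products
and containing the surface groups; the cellular chain complexes of the manifolds form a class `𝒞` of
complexes (`Cplx`: cocompact, with finite stabilizers). Let `B(G)` be the sum of all `L²`-Betti
numbers of `G`. The `L²`-homology of all groups in the class vanishes above half the dimension of `M`
if and only if for every `ε > 0` there are arbitrarily large `m` such that for all groups with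
`dim M = 2 m` the sum of the `L²`-Betti numbers in the degrees `k ≥ (1 + ε) m` is at most
`ε ^ m B(G) + β`, where `β` is any number depending on `m` and `ε`. So it suffices to control the
share of these degrees for the groups with `B(G)` huge in infinitely many even dimensions, or to know
the vanishing above `m + o (m)`.

Outline. The Künneth formula for reduced `L²`-homology, which is proved for these complexes, and
multiplication by surface groups of large genus and powers.
-/

set_option autoImplicit false

namespace Pool.Agent.Results.MP_ea75ba_gt.TailShareLaw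

open Pool.Agent.Run7.h604.HK

theorem result (𝒞 : Cplx → Prop) (hp : ∀ A B, 𝒞 A → 𝒞 B → 𝒞 (A.prod B)) (c : ℝ)
    (hS : ∀ t : ℝ, ∃ S, 𝒞 S ∧ S.dim = 2 ∧ t ≤ S.betti 1 ∧ S.total ≤ c * S.betti 1) :
    (∀ A, 𝒞 A → ∀ k, A.dim < 2 * k → A.betti k = 0) ↔
      ∀ ε : ℝ, 0 < ε → ∀ N : ℕ, ∃ m ≥ N, ∃ β : ℝ, ∀ A, 𝒞 A → A.dim = 2 * m →
        ∑ k ∈ (Finset.range (A.dim + 1)).filter (fun k : ℕ => (1 + ε) * m ≤ k), A.betti k ≤
          ε ^ m * A.total + β := by
  have key := Cplx.above_middle_iff 𝒞 hp (fun A => A.total) (fun A _ => A.total_nonneg)
    (fun A B _ _ => (A.total_prod B).le) c hS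
  constructor
  · intro h ε hε N
    refine ⟨N + 1, by omega, 0, fun A hA hd => ?_⟩
    rw [Finset.sum_eq_zero, add_zero]
    · exact mul_nonneg (by positivity) A.total_nonneg
    · intro k hk
      refine h A hA k ?_
      have h1 : ((N + 1 : ℕ) : ℝ) < k := by
        refine lt_of_lt_of_le ?_ (Finset.mem_filter.1 hk).2
        have : (0 : ℝ) < ((N + 1 : ℕ) : ℝ) := by positivity
        nlinarith
      have h2 : N + 1 < k := by exact_mod_cast h1
      omega
  · intro H
    refine key.2 fun ε hε N => ?_
    obtain ⟨m, hm, β, hβ⟩ := H ε hε N
    refine ⟨m, hm, max β 0, fun A hA hd k hk => ?_⟩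
    by_cases hkd : k ≤ A.dim
    · refine le_trans ?_ ((hβ A hA hd).trans (add_le_add le_rfl (le_max_left _ _)))
      exact Finset.single_le_sum (f := fun k => A.betti k) (fun j _ => A.betti_nonneg j)
        (Finset.mem_filter.2 ⟨Finset.mem_range.2 (by omega), hk⟩)
    · rw [A.betti_eq_zero (by omega)]
      exact add_nonneg (mul_nonneg (by positivity) A.total_nonneg) (le_max_right _ _)

end Pool.Agent.Results.MP_ea75ba_gt.TailShareLaw
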